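import Pool.Agent.Run7.h608.BC.Iface

/-!
# Piece APX of project BC (helper608, MP_ddcbd8_an), by helper834
-/

set_option autoImplicit false
set_option linter.all false

open MeasureTheory Set Filter Topology
open scoped ENNReal ContDiff

namespace Run7.h834.BC

open Run7.h608.BC

/-- the mean oscillation -/
noncomputable def osc (h : ℝ → ℝ) (x r : ℝ) : ℝ := (∫ z in Icc (x - r) (x + r), |h z - h x|) / r

theorem osc_int (h : ℝ → ℝ) (x r : ℝ) (hh : Integrable h) :
    IntegrableOn (fun z => |h z - h x|) (Icc (x - r) (x + r)) := by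
  apply Integrable.abs
  apply Integrable.sub hh.integrableOn
  exact integrable_const _

theorem osc_nonneg (h : ℝ → ℝ) (x r : ℝ) (hr : 0 ≤ r) : 0 ≤ osc h x r :=
  div_nonneg (integral_nonneg fun z => abs_nonneg _) hr

theorem osc_bdd (h : ℝ → ℝ) (x : ℝ) (hh : Integrable h) (hL : Leb h x) :
    ∃ M : ℝ, 0 ≤ M ∧ ∀ r, 0 < r → osc h x r ≤ M := by
  have h1 : ∀ᶠ r in 𝓝[>] (0 : ℝ), osc h x r < 1 := (tendsto_order.1 hL).2 1 one_pos
  obtain ⟨δ, hδ, h2⟩ := mem_nhdsGT_iff_exists_Ioo_subset.1 h1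
  have hδ' : 0 < δ := hδ
  refine ⟨1 + ((∫ z, |h z|) / δ + 2 * |h x|), by positivity, fun r hr => ?_⟩
  have hpos : 0 ≤ (∫ z, |h z|) / δ + 2 * |h x| := by positivity
  rcases lt_or_ge r δ with hrδ | hrδ
  · have := h2 ⟨hr, hrδ⟩
    have h3 : osc h x r < 1 := this
    linarith
  · have h3 : ∫ z in Icc (x - r) (x + r), |h z - h x| ≤ (∫ z, |h z|) + 2 * r * |h x| := by
      calc ∫ z in Icc (x - r) (x + r), |h z - h x|
          ≤ ∫ z in Icc (x - r) (x + r), (|h z| + |h x|) := by
            apply setIntegral_mono_on (osc_int h x r hh)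
              (hh.abs.integrableOn.add (integrable_const _)) measurableSet_Icc
            intro z _
            exact abs_sub _ _
        _ = (∫ z in Icc (x - r) (x + r), |h z|) + ∫ z in Icc (x - r) (x + r), |h x| :=
            integral_add hh.abs.integrableOn (integrable_const _)
        _ ≤ (∫ z, |h z|) + 2 * r * |h x| := by
            refine add_le_add (setIntegral_le_integral hh.abs
              (Filter.Eventually.of_forall fun z => abs_nonneg _)) ?_
            rw [setIntegral_const, Real.volume_real_Icc_of_le (by linarith), smul_eq_mul]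
            apply le_of_eq; ring
    have h4 : osc h x r ≤ ((∫ z, |h z|) + 2 * r * |h x|) / r :=
      div_le_div_of_nonneg_right h3 hr.le
    have h5 : ((∫ z, |h z|) + 2 * r * |h x|) / r = (∫ z, |h z|) / r + 2 * |h x| := by
      field_simp
    have h6 : (∫ z, |h z|) / r ≤ (∫ z, |h z|) / δ :=
      div_le_div_of_nonneg_left (integral_nonneg fun z => abs_nonneg _) hδ' hrδ
    rw [h5] at h4
    linarith

/-- the dyadic scale of `u` -/
theorem dyadic (u : ℝ) : ∃ i : ℕ, |u| ≤ 2 ^ i ∧ 1 / (1 + u ^ 2) ≤ 4 * (1 / 4) ^ i := by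
  have hex : ∃ i : ℕ, |u| ≤ 2 ^ i := by
    obtain ⟨i, hi⟩ := pow_unbounded_of_one_lt |u| (by norm_num : (1 : ℝ) < 2)
    exact ⟨i, hi.le⟩
  classical
  refine ⟨Nat.find hex, Nat.find_spec hex, ?_⟩
  rcases Nat.eq_zero_or_pos (Nat.find hex) with h0 | h0
  · rw [h0]
    have h1 : 1 / (1 + u ^ 2) ≤ 1 := by
      rw [div_le_one (by positivity)]; nlinarith [sq_nonneg u]
    norm_num
    norm_num at h1
    linarith
  · obtain ⟨j, hj⟩ : ∃ j, Nat.find hex = j + 1 := ⟨Nat.find hex - 1, by omega⟩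
    have h1 : ¬ |u| ≤ 2 ^ j := Nat.find_min hex (by omega)
    push Not at h1
    rw [hj]
    have h2 : (4 : ℝ) ^ j ≤ u ^ 2 := by
      calc (4 : ℝ) ^ j = (2 ^ j) ^ 2 := by rw [← pow_mul, mul_comm, pow_mul]; norm_num
        _ ≤ |u| ^ 2 := pow_le_pow_left₀ (by positivity) h1.le 2
        _ = u ^ 2 := sq_abs _
    have h3 : 1 / (1 + u ^ 2) ≤ 1 / 4 ^ j := one_div_le_one_div_of_le (by positivity) (by linarith)
    have h4 : 4 * (1 / 4 : ℝ) ^ (j + 1) = 1 / 4 ^ j := by
      rw [pow_succ, one_div_pow]; ring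
    rw [h4]; exact h3

/-- the terms of the series -/
noncomputable def trm (A : ℝ) (h : ℝ → ℝ) (x s : ℝ) (i : ℕ) : ℝ :=
  4 * A * (1 / 2) ^ i * osc h x (2 ^ i / s)

theorem main_bound (h : ℝ → ℝ) (x : ℝ) (hh : Integrable h) (ψ : ℝ → ℂ) (hψ : Continuous ψ)
    (A M : ℝ) (hA : ∀ t, ‖ψ t‖ ≤ A / (1 + t ^ 2)) (hA0 : 0 ≤ A) (hM0 : 0 ≤ M)
    (hM : ∀ r, 0 < r → osc h x r ≤ M) (s : ℝ) (hs : 0 < s) :
    ‖(∫ z, (s : ℂ) * ψ (s * (x - z)) * (h z : ℂ)) - (h x : ℂ) * ∫ t, ψ t‖ ≤
      ∑' i : ℕ, trm A h x s i := by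
  -- integrability of `ψ`
  have hψi : Integrable ψ := by
    refine Integrable.mono' (integrable_inv_one_add_sq.const_mul A)
      hψ.aestronglyMeasurable (Filter.Eventually.of_forall fun t => ?_)
    rw [← div_eq_mul_inv]; exact hA t
  obtain ⟨Φ, hΦ⟩ : ∃ Φ : ℝ → ℂ, Φ = fun z => (s : ℂ) * ψ (s * (x - z)) := ⟨_, rfl⟩
  have hΦc : Continuous Φ := by
    rw [hΦ]
    exact continuous_const.mul (hψ.comp (continuous_const.mul (continuous_const.sub continuous_id)))
  have hΦi : Integrable Φ := by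
    rw [hΦ]
    apply Integrable.const_mul
    have h1 : Integrable fun z : ℝ => ψ (s * z) := hψi.comp_mul_left' hs.ne'
    exact h1.comp_sub_left x
  have hΦint : ∫ z, Φ z = ∫ t, ψ t := by
    rw [hΦ]
    rw [integral_const_mul, integral_sub_left_eq_self (fun z => ψ (s * z)) volume x,
      Measure.integral_comp_mul_left, abs_of_pos (by positivity : 0 < s⁻¹)]
    rw [Complex.real_smul, ← mul_assoc, ← Complex.ofReal_mul, mul_inv_cancel₀ hs.ne']
    simp
  have hΦb : ∀ z, ‖Φ z‖ ≤ s * (A / (1 + (s * (x - z)) ^ 2)) := by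
    intro z
    rw [hΦ]
    show ‖(s : ℂ) * ψ (s * (x - z))‖ ≤ _
    rw [norm_mul, Complex.norm_real, Real.norm_eq_abs, abs_of_pos hs]
    exact mul_le_mul_of_nonneg_left (hA _) hs.le
  have hΦb2 : ∀ z, ‖Φ z‖ ≤ s * A := by
    intro z
    refine (hΦb z).trans (mul_le_mul_of_nonneg_left ?_ hs.le)
    apply div_le_self hA0
    nlinarith [sq_nonneg (s * (x - z))]
  have hΦh : Integrable fun z => Φ z * (h z : ℂ) :=
    hh.ofReal.bdd_mul hΦc.aestronglyMeasurable (c := s * A)
      (Filter.Eventually.of_forall hΦb2)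
  have hΦx : Integrable fun z => Φ z * (h x : ℂ) := hΦi.mul_const _
  have heq : (∫ z, (s : ℂ) * ψ (s * (x - z)) * (h z : ℂ)) - (h x : ℂ) * ∫ t, ψ t =
      ∫ z, (Φ z * (h z : ℂ) - Φ z * (h x : ℂ)) := by
    rw [integral_sub hΦh hΦx, integral_mul_const, hΦint, mul_comm (h x : ℂ), hΦ]
  rw [heq]
  -- the terms
  have hterm0 : ∀ i, 0 ≤ trm A h x s i := fun i =>
    mul_nonneg (by positivity) (osc_nonneg h x _ (by positivity))
  have hsum : Summable (trm A h x s) := by
    refine Summable.of_nonneg_of_le hterm0 (fun i => ?_)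
      ((summable_geometric_of_lt_one (r := (1 / 2 : ℝ)) (by norm_num) (by norm_num)).mul_left
        (4 * A * M))
    calc trm A h x s i ≤ 4 * A * (1 / 2) ^ i * M :=
          mul_le_mul_of_nonneg_left (hM _ (by positivity)) (by positivity)
      _ = 4 * A * M * (1 / 2) ^ i := by ring
  have hl : ∫⁻ z, ‖Φ z * (h z : ℂ) - Φ z * (h x : ℂ)‖ₑ ≤ ENNReal.ofReal (∑' i, trm A h x s i) := by
    rw [ENNReal.ofReal_tsum_of_nonneg hterm0 hsum]
    have hpt : ∀ z, ‖Φ z * (h z : ℂ) - Φ z * (h x : ℂ)‖ₑ ≤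
        ∑' i : ℕ, (Icc (x - 2 ^ i / s) (x + 2 ^ i / s)).indicator
          (fun z => ENNReal.ofReal (s * A * (4 * (1 / 4) ^ i)) * ENNReal.ofReal |h z - h x|) z := by
      intro z
      obtain ⟨i, hi, hi2⟩ := dyadic (s * (x - z))
      refine le_trans ?_ (ENNReal.le_tsum i)
      have hz : z ∈ Icc (x - 2 ^ i / s) (x + 2 ^ i / s) := by
        have h1 : |x - z| ≤ 2 ^ i / s := by
          rw [le_div_iff₀ hs, mul_comm]
          rw [abs_mul, abs_of_pos hs] at hi
          exact hi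
        have h2 := abs_le.1 h1
        exact ⟨by linarith [h2.2], by linarith [h2.1]⟩
      rw [indicator_of_mem hz, ← mul_sub, enorm_mul, ← ENNReal.ofReal_mul (by positivity)]
      have h3 : ‖(h z : ℂ) - (h x : ℂ)‖ₑ = ENNReal.ofReal |h z - h x| := by
        rw [← Complex.ofReal_sub, ← ofReal_norm_eq_enorm, Complex.norm_real, Real.norm_eq_abs]
      rw [h3, ← ofReal_norm_eq_enorm, ← ENNReal.ofReal_mul (norm_nonneg _)]
      apply ENNReal.ofReal_le_ofReal
      apply mul_le_mul_of_nonneg_right _ (abs_nonneg _)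
      calc ‖Φ z‖ ≤ s * (A / (1 + (s * (x - z)) ^ 2)) := hΦb z
        _ = s * A * (1 / (1 + (s * (x - z)) ^ 2)) := by ring
        _ ≤ _ := mul_le_mul_of_nonneg_left hi2 (by positivity)
    refine (lintegral_mono hpt).trans (le_of_eq ?_)
    have hmeas : AEMeasurable fun z => ENNReal.ofReal |h z - h x| :=
      ((hh.aestronglyMeasurable.aemeasurable.sub aemeasurable_const).norm).ennreal_ofReal
    rw [lintegral_tsum]
    · congr 1
      funext i
      rw [lintegral_indicator measurableSet_Icc, lintegral_const_mul' _ _ ENNReal.ofReal_ne_top,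
        ← ofReal_integral_eq_lintegral_ofReal (osc_int h x _ hh)
          (Filter.Eventually.of_forall fun z => abs_nonneg _),
        ← ENNReal.ofReal_mul (by positivity)]
      congr 1
      unfold trm osc
      have h2i : (2 : ℝ) ^ i ≠ 0 := by positivity
      have h4 : (1 / 4 : ℝ) ^ i * 2 ^ i = (1 / 2) ^ i := by rw [← mul_pow]; norm_num
      have h5 : (1 / 4 : ℝ) ^ i = (1 / 2) ^ i / 2 ^ i := by
        rw [eq_div_iff h2i]; exact h4
      rw [h5]
      field_simp
    · intro i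
      exact ((aemeasurable_const.mul hmeas).indicator measurableSet_Icc)
  have h1 := (enorm_integral_le_lintegral_enorm
    (fun z => Φ z * (h z : ℂ) - Φ z * (h x : ℂ))).trans hl
  rw [← ofReal_norm_eq_enorm] at h1
  exact (ENNReal.ofReal_le_ofReal_iff (tsum_nonneg hterm0)).1 h1

theorem t_APX : S_APX := by
  intro β h x hβ hh hL ψ hψ hA
  obtain ⟨A, hA⟩ := hA
  have hA0 : 0 ≤ A := by
    have := (norm_nonneg _).trans (hA 0)
    simpa using this
  obtain ⟨M, hM0, hM⟩ := osc_bdd h x hh hL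
  have hβ0 : 0 < β := by linarith
  -- the series tends to zero
  have hser : Tendsto (fun n : ℕ => ∑' i : ℕ, trm A h x (β ^ n) i) atTop (𝓝 (∑' i : ℕ, (0 : ℝ))) := by
    refine tendsto_tsum_of_dominated_convergence (bound := fun i => 4 * A * M * (1 / 2) ^ i)
      ((summable_geometric_of_lt_one (r := (1 / 2 : ℝ)) (by norm_num) (by norm_num)).mul_left _)
      (fun i => ?_) (Filter.Eventually.of_forall fun n i => ?_)
    · have h1 : Tendsto (fun n : ℕ => (2 : ℝ) ^ i / β ^ n) atTop (𝓝[>] 0) := by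
        refine tendsto_nhdsWithin_iff.2 ⟨?_, Filter.Eventually.of_forall fun n => ?_⟩
        · exact tendsto_const_nhds.div_atTop (tendsto_pow_atTop_atTop_of_one_lt hβ)
        · show (0 : ℝ) < _
          positivity
      have h2 : Tendsto (fun n : ℕ => osc h x ((2 : ℝ) ^ i / β ^ n)) atTop (𝓝 0) :=
        hL.comp h1
      have h3 := h2.const_mul (4 * A * (1 / 2) ^ i)
      rw [mul_zero] at h3
      exact h3
    · have hb : 0 < β ^ n := by positivity
      have h0 : 0 ≤ trm A h x (β ^ n) i :=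
        mul_nonneg (by positivity) (osc_nonneg h x _ (by positivity))
      rw [Real.norm_eq_abs, abs_of_nonneg h0]
      calc trm A h x (β ^ n) i ≤ 4 * A * (1 / 2) ^ i * M :=
            mul_le_mul_of_nonneg_left (hM _ (by positivity)) (by positivity)
        _ = 4 * A * M * (1 / 2) ^ i := by ring
  rw [tsum_zero] at hser
  rw [tendsto_iff_norm_sub_tendsto_zero]
  refine squeeze_zero (fun n => norm_nonneg _) (fun n => ?_) hser
  exact main_bound h x hh ψ hψ A M hA hA0 hM0 hM (β ^ n) (by positivity)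

end Run7.h834.BC
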