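import Pool.Agent.Run7.h608.BC.Iface

/-!
# Piece SAN of project BC (helper608, MP_ddcbd8_an), by helper834
-/

set_option autoImplicit false
set_option linter.all false

open MeasureTheory Set Filter Topology
open scoped ENNReal ContDiff

namespace Run7.h834.BC

open Run7.h608.BC

theorem t_SAN (hKER : S_KER) (hTAI : S_TAI) : S_SAN := by
  intro β x C c hβ hc hG hlim p q hpq
  have hC : 0 ≤ C := hG.1
  -- the real version of the convergence
  have hre : ∀ g : ℝ → ℂ, Tst g → (∀ t, (T g t).im = 0) →
      Tendsto (fun n : ℕ => LR β x n (fun t => (T g t).re)) atTop (𝓝 (c * (g 0).re)) := by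
    intro g hg him
    have h1 : T g = fun t => (((T g t).re : ℝ) : ℂ) := by
      funext t
      apply Complex.ext <;> simp [him t]
    have h2 := hlim g hg
    have h3 : ∀ n, L β x n (T g) = ((LR β x n (fun t => (T g t).re) : ℝ) : ℂ) := by
      intro n
      rw [← L_ofReal]
      conv_lhs => rw [h1]
    have h4 := (Complex.continuous_re.tendsto _).comp h2
    have h5 : ((c : ℂ) * g 0).re = c * (g 0).re := by simp
    rw [h5] at h4
    refine h4.congr fun n => ?_
    show (L β x n (T g)).re = _
    rw [h3, Complex.ofReal_re]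
  refine tendsto_order.2 ⟨?_, ?_⟩
  · -- lower bound
    intro a ha
    have hF : Tendsto (fun η : ℝ => c * (q - p - 3 * η) - 8 * C * η - η) (𝓝[>] 0)
        (𝓝 (c * (q - p - 3 * 0) - 8 * C * 0 - 0)) := by
      have : Continuous fun η : ℝ => c * (q - p - 3 * η) - 8 * C * η - η := by fun_prop
      exact (this.tendsto 0).mono_left nhdsWithin_le_nhds
    simp only [mul_zero, sub_zero] at hF
    have h1 := (tendsto_order.1 hF).1 a ha
    have h2 : ∀ᶠ η in 𝓝[>] (0 : ℝ), η < min 1 ((q - p) / 2) :=
      nhdsWithin_le_nhds (Iio_mem_nhds (lt_min one_pos (by linarith)))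
    obtain ⟨η, ⟨h3, h4⟩, h5⟩ := ((h1.and h2).and self_mem_nhdsWithin).exists
    have h5' : 0 < η := h5
    have h6 : η < 1 := h4.trans_le (min_le_left _ _)
    have h7 : η < (q - p) / 2 := h4.trans_le (min_le_right _ _)
    obtain ⟨g, hg, hg1, hg2, hg3, hg4⟩ := hKER (p + η) (q - η) η (by linarith) h5' h6
    have h8 := hre g hg fun t => (hg1 t).1
    have h9 : c * (q - p - 3 * η) ≤ c * (g 0).re := by
      apply mul_le_mul_of_nonneg_left _ hc
      have h10 := Complex.abs_re_le_norm (g 0 - ((q - η - (p + η) : ℝ) : ℂ))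
      rw [Complex.sub_re, Complex.ofReal_re] at h10
      have h11 := (abs_le.1 (h10.trans hg3)).1
      linarith
    have h12 := (tendsto_order.1 h8).1 (c * (g 0).re - η) (by linarith)
    filter_upwards [h12] with n hn
    have h13 : LR β x n (fun t => (T g t).re) ≤
        LR β x n (fun t => ind p q t + η * (1 / (1 + (t / 1) ^ 2))) := by
      apply LR_mono β x hβ
      intro t
      have h14 : 0 ≤ η * (1 / (1 + (t / 1) ^ 2)) := by positivity
      by_cases ht : t ∈ Icc p q
      · have : ind p q t = 1 := by unfold ind; exact indicator_of_mem ht _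
        rw [this]
        linarith [(hg1 t).2.2]
      · have : ind p q t = 0 := by unfold ind; exact indicator_of_notMem ht _
        rw [this, zero_add]
        have h15 := hg4 t (by
          rw [show p + η - η = p by ring, show q - η + η = q by ring]; exact ht)
        rw [div_one, mul_one_div]
        exact h15
    rw [LR_add β x n (ind p q) (fun t => η * (1 / (1 + (t / 1) ^ 2))),
      LR_smul β x n η (fun t => 1 / (1 + (t / 1) ^ 2))] at h13
    have h16 := hTAI β x C hβ hG n 1 le_rfl
    have h17 : η * LR β x n (fun t => 1 / (1 + (t / 1) ^ 2)) ≤ η * (8 * C * 1) :=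
      mul_le_mul_of_nonneg_left h16 h5'.le
    linarith
  · -- upper bound
    intro a ha
    have hF : Tendsto (fun η : ℝ => (c * (q - p + η) + η) / (1 - η)) (𝓝[>] 0)
        (𝓝 ((c * (q - p + 0) + 0) / (1 - 0))) := by
      have h1 : Tendsto (fun η : ℝ => c * (q - p + η) + η) (𝓝 0) (𝓝 (c * (q - p + 0) + 0)) := by
        have : Continuous fun η : ℝ => c * (q - p + η) + η := by fun_prop
        exact this.tendsto 0
      have h2 : Tendsto (fun η : ℝ => 1 - η) (𝓝 0) (𝓝 (1 - 0)) := by
        have : Continuous fun η : ℝ => 1 - η := by fun_prop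
        exact this.tendsto 0
      exact (h1.div h2 (by norm_num)).mono_left nhdsWithin_le_nhds
    simp only [add_zero, sub_zero, div_one] at hF
    have h1 := (tendsto_order.1 hF).2 a ha
    have h2 : ∀ᶠ η in 𝓝[>] (0 : ℝ), η < 1 := nhdsWithin_le_nhds (Iio_mem_nhds one_pos)
    obtain ⟨η, ⟨h3, h6⟩, h5⟩ := ((h1.and h2).and self_mem_nhdsWithin).exists
    have h5' : 0 < η := h5
    obtain ⟨g, hg, hg1, hg2, hg3, hg4⟩ := hKER p q η hpq h5' h6
    have h8 := hre g hg fun t => (hg1 t).1
    have h9 : c * (g 0).re ≤ c * (q - p + η) := by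
      apply mul_le_mul_of_nonneg_left _ hc
      have h10 := Complex.abs_re_le_norm (g 0 - ((q - p : ℝ) : ℂ))
      rw [Complex.sub_re, Complex.ofReal_re] at h10
      have h11 := (abs_le.1 (h10.trans hg3)).2
      linarith
    have h12 := (tendsto_order.1 h8).2 (c * (g 0).re + η) (by linarith)
    filter_upwards [h12] with n hn
    have h13 : LR β x n (fun t => (1 - η) * ind p q t) ≤ LR β x n (fun t => (T g t).re) := by
      apply LR_mono β x hβ
      intro t
      by_cases ht : t ∈ Icc p q
      · have : ind p q t = 1 := by unfold ind; exact indicator_of_mem ht _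
        rw [this, mul_one]
        exact hg2 t ht
      · have : ind p q t = 0 := by unfold ind; exact indicator_of_notMem ht _
        rw [this, mul_zero]
        exact (hg1 t).2.1
    rw [LR_smul β x n (1 - η) (ind p q)] at h13
    have h14 : LR β x n (ind p q) ≤ (c * (q - p + η) + η) / (1 - η) := by
      rw [le_div_iff₀ (by linarith)]
      linarith
    exact lt_of_le_of_lt h14 h3

end Run7.h834.BC
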