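import Pool.Agent.Run7.h608.BC.Iface

/-!
# Piece TAI of project BC (helper608, MP_ddcbd8_an), by helper834
-/

set_option autoImplicit false
set_option linter.all false

open MeasureTheory Set Filter Topology
open scoped ENNReal ContDiff

namespace Run7.h834.BC

open Run7.h608.BC

theorem LR_sum (β x : ℝ) (n N : ℕ) (f : ℕ → ℝ → ℝ) :
    LR β x n (fun t => ∑ i ∈ Finset.range N, f i t) = ∑ i ∈ Finset.range N, LR β x n (f i) := by
  induction N with
  | zero =>
    simp only [Finset.range_zero, Finset.sum_empty]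
    have h := LR_smul β x n 0 (fun _ => 1)
    simpa using h
  | succ N ih =>
    simp only [Finset.sum_range_succ]
    rw [LR_add β x n (fun t => ∑ i ∈ Finset.range N, f i t) (f N), ih]

theorem ind_nonneg (p q t : ℝ) : 0 ≤ ind p q t := by
  unfold ind
  by_cases h : t ∈ Icc p q
  · rw [indicator_of_mem h]; exact zero_le_one
  · rw [indicator_of_notMem h]

theorem ind_of_abs {R t : ℝ} (h : |t| ≤ R) : ind (-R) R t = 1 := by
  unfold ind
  have h1 : t ∈ Icc (-R) R := ⟨(abs_le.1 h).1, (abs_le.1 h).2⟩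
  rw [indicator_of_mem h1]

theorem ptw1 (R : ℝ) (hR : 1 ≤ R) (t : ℝ) (N : ℕ) (h : |t| ≤ 2 ^ N * R) :
    1 / (1 + (t / R) ^ 2) ≤
      ∑ i ∈ Finset.range (N + 1), 4 * (1 / 4) ^ i * ind (-(2 ^ i * R)) (2 ^ i * R) t := by
  induction N with
  | zero =>
    simp only [zero_add, Finset.range_one, Finset.sum_singleton]
    rw [ind_of_abs h]
    have h1 : (0 : ℝ) ≤ (t / R) ^ 2 := sq_nonneg _
    have h2 : 1 / (1 + (t / R) ^ 2) ≤ 1 := by
      rw [div_le_one (by positivity)]; linarith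
    norm_num
    norm_num at h2
    linarith
  | succ N ih =>
    rw [Finset.sum_range_succ]
    have h0 : 0 ≤ ind (-(2 ^ (N + 1) * R)) (2 ^ (N + 1) * R) t := ind_nonneg _ _ _
    by_cases h1 : |t| ≤ 2 ^ N * R
    · have := ih h1
      have h2 : 0 ≤ 4 * (1 / 4 : ℝ) ^ (N + 1) * ind (-(2 ^ (N + 1) * R)) (2 ^ (N + 1) * R) t := by
        positivity
      linarith
    · push Not at h1
      rw [ind_of_abs h, mul_one]
      have hs : 0 ≤ ∑ i ∈ Finset.range (N + 1),
          4 * (1 / 4 : ℝ) ^ i * ind (-(2 ^ i * R)) (2 ^ i * R) t :=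
        Finset.sum_nonneg fun i _ => mul_nonneg (by positivity) (ind_nonneg _ _ _)
      have h2 : (4 : ℝ) ^ N ≤ (t / R) ^ 2 := by
        have h3 : (2 : ℝ) ^ N ≤ |t / R| := by
          rw [abs_div, abs_of_pos (by linarith : 0 < R), le_div_iff₀ (by linarith)]
          exact h1.le
        calc (4 : ℝ) ^ N = (2 ^ N) ^ 2 := by rw [← pow_mul, mul_comm, pow_mul]; norm_num
          _ ≤ |t / R| ^ 2 := pow_le_pow_left₀ (by positivity) h3 2
          _ = (t / R) ^ 2 := sq_abs _
      have h3 : 1 / (1 + (t / R) ^ 2) ≤ 1 / 4 ^ N :=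
        one_div_le_one_div_of_le (by positivity) (by linarith)
      have h4 : 4 * (1 / 4 : ℝ) ^ (N + 1) = 1 / 4 ^ N := by
        rw [pow_succ, one_div_pow]; ring
      rw [h4]
      linarith

theorem ptw (R : ℝ) (hR : 1 ≤ R) (t : ℝ) (N : ℕ) :
    1 / (1 + (t / R) ^ 2) ≤
      (∑ i ∈ Finset.range (N + 1), 4 * (1 / 4) ^ i * ind (-(2 ^ i * R)) (2 ^ i * R) t) +
        (1 / 4) ^ N * 1 := by
  by_cases h : |t| ≤ 2 ^ N * R
  · have h1 := ptw1 R hR t N h
    have h2 : (0 : ℝ) ≤ (1 / 4) ^ N * 1 := by positivity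
    linarith
  · push Not at h
    have hs : 0 ≤ ∑ i ∈ Finset.range (N + 1),
        4 * (1 / 4 : ℝ) ^ i * ind (-(2 ^ i * R)) (2 ^ i * R) t :=
      Finset.sum_nonneg fun i _ => mul_nonneg (by positivity) (ind_nonneg _ _ _)
    have h2 : (4 : ℝ) ^ N ≤ (t / R) ^ 2 := by
      have h3 : (2 : ℝ) ^ N ≤ |t / R| := by
        rw [abs_div, abs_of_pos (by linarith : 0 < R), le_div_iff₀ (by linarith)]
        exact h.le
      calc (4 : ℝ) ^ N = (2 ^ N) ^ 2 := by rw [← pow_mul, mul_comm, pow_mul]; norm_num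
        _ ≤ |t / R| ^ 2 := pow_le_pow_left₀ (by positivity) h3 2
        _ = (t / R) ^ 2 := sq_abs _
    have h3 : 1 / (1 + (t / R) ^ 2) ≤ 1 / 4 ^ N :=
      one_div_le_one_div_of_le (by positivity) (by linarith)
    rw [mul_one, one_div_pow]
    linarith

theorem t_TAI : S_TAI := by
  intro β x C hβ hG n R hR
  obtain ⟨hC, hG⟩ := hG
  have key : ∀ N : ℕ, LR β x n (fun t => 1 / (1 + (t / R) ^ 2)) ≤
      8 * C * R + (1 / 4) ^ N * β ^ n := by
    intro N
    refine (LR_mono β x hβ n _ _ fun t => ptw R hR t N).trans ?_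
    rw [LR_add β x n (fun t => ∑ i ∈ Finset.range (N + 1),
      4 * (1 / 4) ^ i * ind (-(2 ^ i * R)) (2 ^ i * R) t) (fun _ => (1 / 4) ^ N * 1),
      LR_smul β x n ((1 / 4) ^ N) (fun _ => 1), LR_one, LR_sum]
    refine add_le_add ?_ le_rfl
    calc ∑ i ∈ Finset.range (N + 1),
          LR β x n (fun t => 4 * (1 / 4) ^ i * ind (-(2 ^ i * R)) (2 ^ i * R) t)
        ≤ ∑ i ∈ Finset.range (N + 1), 4 * C * R * (1 / 2) ^ i := by
          apply Finset.sum_le_sum
          intro i _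
          rw [LR_smul β x n (4 * (1 / 4) ^ i) (ind (-(2 ^ i * R)) (2 ^ i * R))]
          have h1 : 1 ≤ 2 ^ i * R := by
            have : (1 : ℝ) ≤ 2 ^ i := one_le_pow₀ (by norm_num)
            nlinarith
          calc 4 * (1 / 4 : ℝ) ^ i * LR β x n (ind (-(2 ^ i * R)) (2 ^ i * R))
              ≤ 4 * (1 / 4 : ℝ) ^ i * (C * (2 ^ i * R)) :=
                mul_le_mul_of_nonneg_left (hG n _ h1) (by positivity)
            _ = 4 * C * R * ((1 / 4 : ℝ) ^ i * 2 ^ i) := by ring
            _ = 4 * C * R * (1 / 2) ^ i := by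
                rw [← mul_pow]; norm_num
      _ = 4 * C * R * ∑ i ∈ Finset.range (N + 1), (1 / 2 : ℝ) ^ i := by rw [Finset.mul_sum]
      _ ≤ 4 * C * R * 2 := by
          apply mul_le_mul_of_nonneg_left _ (by positivity)
          have h1 := Summable.sum_le_tsum (Finset.range (N + 1)) (fun i _ => by positivity)
            (summable_geometric_of_lt_one (r := (1 / 2 : ℝ)) (by norm_num) (by norm_num))
          rw [tsum_geometric_of_lt_one (by norm_num) (by norm_num)] at h1
          norm_num at h1 ⊢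
          linarith
      _ = 8 * C * R := by ring
  have hlim : Tendsto (fun N : ℕ => 8 * C * R + (1 / 4 : ℝ) ^ N * β ^ n) atTop
      (𝓝 (8 * C * R + 0 * β ^ n)) :=
    ((tendsto_pow_atTop_nhds_zero_of_lt_one (by norm_num) (by norm_num)).mul_const _).const_add _
  rw [zero_mul, add_zero] at hlim
  exact ge_of_tendsto' hlim key

end Run7.h834.BC
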